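import Pool.Agent.Run7.h800.RG.Stm

/-!
# Project RG (helper800), piece COM: completion and augmentation
-/

set_option autoImplicit false

namespace Run7.h376.RG

open MeasureTheory ProbabilityTheory Set Filter Topology
open scoped ENNReal NNReal
open Run7.h800.RG

theorem setInt {Ω : Type} {m m' : MeasurableSpace Ω} (hm : m ≤ m') (P' : @Measure Ω m') {f : Ω → ℝ}
    (hf : Integrable f (P'.trim hm)) {E : Set Ω} (hE : MeasurableSet[m] E) :
    ∫ ω in E, f ω ∂(P'.trim hm) = ∫ ω in E, f ω ∂P' := by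
  rw [restrict_trim hm P' hE, integral_trim_ae hm]
  rw [← restrict_trim hm P' hE]
  exact hf.aestronglyMeasurable.restrict

theorem mart {Ω : Type} {m m' : MeasurableSpace Ω} (hm : m ≤ m') (P' : @Measure Ω m')
    (hP : @IsProbabilityMeasure Ω m' P') (F : ℝ≥0 → MeasurableSpace Ω) (hF : ∀ t, F t ≤ m)
    (F' : @Filtration Ω ℝ≥0 _ m')
    (hF' : ∀ t (s : Set Ω), MeasurableSet[F' t] s → ∃ s0, MeasurableSet[F t] s0 ∧ s =ᵐ[P'] s0) (X : ℝ≥0 → Ω → ℝ)
    (hX : ∀ t, Integrable (X t) (P'.trim hm)) (hmeas : ∀ t, Measurable[F' t] (X t))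
    (heq : ∀ s t : ℝ≥0, s ≤ t → ∀ E : Set Ω, MeasurableSet[F s] E →
      ∫ ω in E, X t ω ∂(P'.trim hm) = ∫ ω in E, X s ω ∂(P'.trim hm)) :
    Martingale (m0 := m') X F' P' := by
  have hint : ∀ t, Integrable (X t) P' := fun t => integrable_of_integrable_trim hm (hX t)
  refine ⟨fun t => (hmeas t).stronglyMeasurable, fun s t hst => ?_⟩
  symm
  apply ae_eq_condExp_of_forall_setIntegral_eq (F'.le s) (hint t)
  · intro E _ _
    exact (hint s).integrableOn
  · intro E hE _
    obtain ⟨E0, hE0, hEE⟩ := hF' s E hE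
    rw [setIntegral_congr_set hEE, setIntegral_congr_set hEE]
    rw [← setInt hm P' (hX s) (hF s E0 hE0), ← setInt hm P' (hX t) (hF s E0 hE0)]
    exact (heq s t hst E0 hE0).symm
  · exact ((hmeas s).stronglyMeasurable).aestronglyMeasurable

theorem t_COM : S_COM := by
  intro Ω m P hP
  obtain ⟨m', P', hm'⟩ : ∃ (m' : MeasurableSpace Ω) (P' : @Measure Ω m'), m' = eventuallyMeasurableSpace m (ae P) ∧
      @Measure.IsComplete Ω m' P' ∧ ∀ s : Set Ω, P' s = P s :=
    ⟨eventuallyMeasurableSpace m (ae P), P.completion, rfl, Measure.completion.isComplete P,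
      fun s => Measure.completion_apply P s⟩
  obtain ⟨hm0, hcomp, hPs⟩ := hm'
  have hm : m ≤ m' := by
    rw [hm0]
    exact le_eventuallyMeasurableSpace
  have hprob : @IsProbabilityMeasure Ω m' P' := ⟨by rw [hPs]; exact measure_univ⟩
  have htrim : P'.trim hm = P := by
    refine @Measure.ext _ m _ _ (fun s hs => ?_)
    rw [trim_measurableSet_eq hm hs, hPs]
  have hae : ∀ s t : Set Ω, s =ᵐ[P] t → s =ᵐ[P'] t := by
    intro s t h
    rw [ae_eq_set] at h ⊢
    rw [hPs, hPs]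
    exact h
  refine ⟨m', P', hprob, hcomp, hm, hPs, fun F hmono hF => ?_⟩
  obtain ⟨F', hF'⟩ : ∃ F' : @Filtration Ω ℝ≥0 _ m', ∀ t, F' t = eventuallyMeasurableSpace (F t) (ae P) :=
    ⟨{ seq := fun t => eventuallyMeasurableSpace (F t) (ae P)
       mono' := by
        rintro s t hst E ⟨E0, hE0, h⟩
        exact ⟨E0, hmono hst E0 hE0, h⟩
       le' := by
        rintro t E ⟨E0, hE0, h⟩
        rw [hm0]
        exact ⟨E0, hF t E0 hE0, h⟩ }, fun t => rfl⟩
  have hC : ∀ (t : ℝ≥0) (g h : Ω → ℝ), Measurable[F t] h → g =ᵐ[P] h → Measurable[F' t] g := by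
    intro t g h hh hgh B hB
    rw [hF']
    exact ⟨h ⁻¹' B, hh hB, hgh.preimage B⟩
  refine ⟨F', ?_, hC, fun X hX hXF heq => ?_⟩
  · intro s hs
    rw [hF']
    exact ⟨∅, @MeasurableSet.empty _ (F 0), ae_eq_empty.2 hs⟩
  · have hmeas : ∀ t, Measurable[F' t] (X t) := by
      intro t
      obtain ⟨h, hh, hXh⟩ := hXF t
      exact hC t (X t) h hh hXh
    apply mart hm P' hprob F hF F' _ X _ hmeas _
    · intro t s hs
      rw [hF'] at hs
      obtain ⟨s0, hs0, h⟩ := hs
      exact ⟨s0, hs0, hae s s0 h⟩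
    · intro t
      rw [htrim]
      exact hX t
    · intro s t hst E hE
      rw [htrim]
      exact heq s t hst E hE

end Run7.h376.RG
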