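import Pool.Agent.Run7.h800.RG.Stm

/-!
# Project RG (helper800), piece GAU: finite dimensional Gaussian shifts
-/

set_option autoImplicit false

namespace Run7.h376.RG

open MeasureTheory ProbabilityTheory Set Filter Topology
open scoped ENNReal NNReal
open Run7.h800.RG

/-- the density of the shift in dimension one -/
noncomputable def sh (v : ℝ≥0) (c x : ℝ) : ℝ≥0∞ := ENNReal.ofReal (Real.exp ((c * x - c ^ 2 / 2) / v))

theorem sh_meas (v : ℝ≥0) (c : ℝ) : Measurable (sh v c) := by
  unfold sh
  fun_prop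

theorem shift1 {v : ℝ≥0} (hv : v ≠ 0) (c : ℝ) :
    gaussianReal c v = (gaussianReal 0 v).withDensity (sh v c) := by
  rw [gaussianReal_of_var_ne_zero _ hv, gaussianReal_of_var_ne_zero _ hv, ← withDensity_mul _
    (measurable_gaussianPDF 0 v) (sh_meas v c)]
  congr 1
  funext x
  rw [Pi.mul_apply]
  unfold sh
  rw [gaussianPDF_def, gaussianPDF_def, gaussianPDFReal_def, gaussianPDFReal_def]
  have hv' : (v : ℝ) ≠ 0 := by exact_mod_cast hv
  show ENNReal.ofReal _ = ENNReal.ofReal _ * ENNReal.ofReal _
  rw [← ENNReal.ofReal_mul (by positivity)]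
  congr 1
  show (√(2 * Real.pi * v))⁻¹ * Real.exp (-(x - c) ^ 2 / (2 * v)) =
    (√(2 * Real.pi * v))⁻¹ * Real.exp (-(x - 0) ^ 2 / (2 * v)) * Real.exp ((c * x - c ^ 2 / 2) / v)
  rw [mul_assoc (√(2 * Real.pi * v))⁻¹, ← Real.exp_add]
  congr 2
  field_simp
  ring

theorem prod_exp (j : ℕ) (v : ℝ≥0) (c x : Fin j → ℝ) :
    ENNReal.ofReal (Real.exp ((∑ i, (c i * x i - (c i) ^ 2 / 2)) / v)) = ∏ i, sh v (c i) (x i) := by
  unfold sh
  rw [← ENNReal.ofReal_prod_of_nonneg (fun i _ => (Real.exp_pos _).le), ← Real.exp_sum, Finset.sum_div]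

theorem lint_pi {j : ℕ} (μ : Measure ℝ) [IsProbabilityMeasure μ] (f : Fin j → ℝ → ℝ≥0∞) (hf : ∀ i, Measurable (f i)) :
    ∫⁻ x, ∏ i, f i (x i) ∂(Measure.pi fun _ : Fin j => μ) = ∏ i, ∫⁻ y, f i y ∂μ := by
  have hind : iIndepFun (fun (i : Fin j) (x : Fin j → ℝ) => f i (x i)) (Measure.pi fun _ : Fin j => μ) :=
    iIndepFun_pi (μ := fun _ : Fin j => μ) (X := f) (fun i => (hf i).aemeasurable)
  rw [lintegral_prod_eq_prod_lintegral_of_indepFun Finset.univ _ hind
    (fun i => (hf i).comp (measurable_pi_apply i))]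
  apply Finset.prod_congr rfl
  intro i _
  exact (measurePreserving_eval (fun _ : Fin j => μ) i).lintegral_comp (hf i)

theorem two1 {v : ℝ≥0} (hv : v ≠ 0) (c c' : ℝ) :
    ∫⁻ x, sh v c x * sh v c' x ∂(gaussianReal 0 v) = ENNReal.ofReal (Real.exp (c * c' / v)) := by
  have hv' : (v : ℝ) ≠ 0 := by exact_mod_cast hv
  have e : ∀ x : ℝ, sh v c x * sh v c' x = ENNReal.ofReal (Real.exp (c * c' / v)) * sh v (c + c') x := by
    intro x
    unfold sh
    rw [← ENNReal.ofReal_mul (Real.exp_pos _).le, ← ENNReal.ofReal_mul (Real.exp_pos _).le, ← Real.exp_add,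
      ← Real.exp_add]
    congr 2
    field_simp
    ring
  simp only [e]
  rw [lintegral_const_mul _ (sh_meas v (c + c'))]
  have h1 := shift1 hv (c + c')
  have h2 : (gaussianReal (c + c') v) univ = 1 := measure_univ
  rw [h1, withDensity_apply _ MeasurableSet.univ, Measure.restrict_univ] at h2
  rw [h2, mul_one]

theorem t_GAU : S_GAU := by
  intro j v hv c c'
  have hv' : (v : ℝ) ≠ 0 := by exact_mod_cast hv
  constructor
  · have hL : (Measure.pi fun _ : Fin j => gaussianReal 0 v).map (fun x i => x i + c i) =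
        Measure.pi (fun i : Fin j => gaussianReal (c i) v) := by
      have h1 : ∀ i : Fin j, (gaussianReal 0 v).map (fun y => y + c i) = gaussianReal (c i) v := by
        intro i
        rw [gaussianReal_map_add_const, zero_add]
      have h2 : ∀ i : Fin j, SigmaFinite ((gaussianReal 0 v).map (fun y => y + c i)) := by
        intro i
        rw [h1]
        infer_instance
      rw [Measure.pi_map_pi (μ := fun _ : Fin j => gaussianReal 0 v) (f := fun i y => y + c i)
        (fun i => by fun_prop)]
      congr 1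
      funext i
      exact h1 i
    rw [hL]
    apply Measure.pi_eq
    intro s hs
    rw [withDensity_apply _ (MeasurableSet.univ_pi hs)]
    rw [← lintegral_indicator (MeasurableSet.univ_pi hs)]
    have e : ∀ x : Fin j → ℝ, (univ.pi s).indicator
        (fun x => ENNReal.ofReal (Real.exp ((∑ i, (c i * x i - (c i) ^ 2 / 2)) / v))) x =
        ∏ i, (s i).indicator (sh v (c i)) (x i) := by
      intro x
      by_cases hx : x ∈ univ.pi s
      · rw [indicator_of_mem hx, prod_exp]
        apply Finset.prod_congr rfl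
        intro i _
        rw [indicator_of_mem (hx i (mem_univ i))]
      · rw [indicator_of_notMem hx]
        have h3 : ∃ i, x i ∉ s i := by
          by_contra hcon
          push Not at hcon
          exact hx (fun i _ => hcon i)
        obtain ⟨i, hi⟩ := h3
        rw [Finset.prod_eq_zero (Finset.mem_univ i) (indicator_of_notMem hi _)]
    simp only [e]
    rw [lint_pi (gaussianReal 0 v) (fun i => (s i).indicator (sh v (c i))) (fun i => (sh_meas v (c i)).indicator (hs i))]
    apply Finset.prod_congr rfl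
    intro i _
    rw [lintegral_indicator (hs i), shift1 hv (c i), withDensity_apply _ (hs i)]
  · simp only [prod_exp, ← Finset.prod_mul_distrib]
    rw [lint_pi (gaussianReal 0 v) (fun i x => sh v (c i) x * sh v (c' i) x)
      (fun i => (sh_meas v (c i)).mul (sh_meas v (c' i)))]
    simp only [two1 hv]
    rw [← ENNReal.ofReal_prod_of_nonneg (fun i _ => (Real.exp_pos _).le), ← Real.exp_sum, Finset.sum_div]

end Run7.h376.RG
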